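import Pool.Agent.Helper67.WI.Sgp3

/-!
# A uniform Wilf type inequality for all numerical semigroups
-/

set_option autoImplicit false

namespace Pool.Agent.Helper21.UW

open Finset Pool.Agent.Helper67.WI

variable {S : AddSubmonoid ℕ} {r : ℕ} {a : Fin r → ℕ}

/-- the number of elements of `S` below the conductor in the class of `x` -/
noncomputable def fl (S : AddSubmonoid ℕ) (a : Fin r → ℕ) (x : Fin r → ℕ) : ℕ :=
  (cond S + mult S - 1 - wN a x) / mult S

/-- the remainder -/
noncomputable def lam (S : AddSubmonoid ℕ) (a : Fin r → ℕ) (x : Fin r → ℕ) : ℕ :=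
  (cond S + mult S - 1 - wN a x) % mult S

theorem wN_sub_single (x : Fin r → ℕ) (i : Fin r) (hi : 1 ≤ x i) :
    wN a (x - Pi.single i 1) + a i = wN a x := by
  have hle : (Pi.single i 1 : Fin r → ℕ) ≤ x := Tile.single_le hi
  have hxy : (x - Pi.single i 1) + Pi.single i 1 = x := tsub_add_cancel_of_le hle
  conv_rhs => rw [← hxy]
  rw [wN_add, wN_single, mul_one]

/-- the step in direction `i` -/
theorem fl_sub (hS : {n | n ∉ S}.Finite) (hc : 1 ≤ cond S) {x : Fin r → ℕ} (hx : IsNF S a x)
    (i : Fin r) (hi : 1 ≤ x i) :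
    fl S a (x - Pi.single i 1) = fl S a x + (lam S a x + a i) / mult S := by
  have hm := mult_pos hS
  have h1 := Ap_le hS hc hx.1
  have h2 := wN_sub_single (a := a) x i hi
  unfold fl lam
  have h3 : cond S + mult S - 1 - wN a (x - Pi.single i 1) = cond S + mult S - 1 - wN a x + a i := by
    omega
  rw [h3]
  have h4 := Nat.div_add_mod (cond S + mult S - 1 - wN a x) (mult S)
  conv_lhs => rw [← h4]
  rw [add_assoc, Nat.mul_add_div hm]

/-- double counting in direction `i` -/
theorem count_dir (hS : {n | n ∉ S}.Finite) (hc : 1 ≤ cond S)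
    (hgen : ∀ g, (∃ i, a i = g) ↔ (g ∈ gens S ∧ g ≠ mult S)) (i : Fin r) :
    ∑ x ∈ nfSet S a, x i * ((lam S a x + a i) / mult S) ≤ ∑ x ∈ nfSet S a, fl S a x := by
  classical
  have h1 : ∑ x ∈ nfSet S a, x i * fl S a (x - Pi.single i 1) ≤
      ∑ y ∈ nfSet S a, (y i + 1) * fl S a y := by
    have h2 : ∑ x ∈ nfSet S a, x i * fl S a (x - Pi.single i 1) =
        ∑ x ∈ (nfSet S a).filter (fun x => 1 ≤ x i), x i * fl S a (x - Pi.single i 1) := by
      symm
      refine sum_filter_of_ne fun x _ h => ?_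
      by_contra hcon
      have : x i = 0 := by omega
      rw [this, zero_mul] at h
      exact h rfl
    have hinj : Set.InjOn (fun x : Fin r → ℕ => x - Pi.single i 1)
        (((nfSet S a).filter (fun x => 1 ≤ x i) : Finset (Fin r → ℕ)) : Set (Fin r → ℕ)) := by
      intro x hx y hy h
      rw [mem_coe, mem_filter] at hx hy
      have hx1 : (x - Pi.single i 1) + Pi.single i 1 = x := tsub_add_cancel_of_le (Tile.single_le hx.2)
      have hy1 : (y - Pi.single i 1) + Pi.single i 1 = y := tsub_add_cancel_of_le (Tile.single_le hy.2)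
      have h' : x - Pi.single i 1 = y - Pi.single i 1 := h
      rw [← hx1, ← hy1, h']
    have h3 : ∑ x ∈ (nfSet S a).filter (fun x => 1 ≤ x i), x i * fl S a (x - Pi.single i 1) =
        ∑ y ∈ ((nfSet S a).filter (fun x => 1 ≤ x i)).image (fun x => x - Pi.single i 1),
          (y i + 1) * fl S a y := by
      rw [sum_image hinj]
      refine sum_congr rfl fun x hx => ?_
      rw [mem_filter] at hx
      have : (x - (Pi.single i 1 : Fin r → ℕ)) i + 1 = x i := by
        rw [Pi.sub_apply, Pi.single_eq_same]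
        omega
      rw [this]
    rw [h2, h3]
    refine sum_le_sum_of_subset fun y hy => ?_
    rw [mem_image] at hy
    obtain ⟨x, hx, rfl⟩ := hy
    rw [mem_filter, mem_nfSet hS hc hgen] at hx
    rw [mem_nfSet hS hc hgen]
    exact IsNF_down hgen hx.1 _ tsub_le_self
  have h4 : ∑ x ∈ nfSet S a, x i * fl S a (x - Pi.single i 1) =
      ∑ x ∈ nfSet S a, (x i * fl S a x + x i * ((lam S a x + a i) / mult S)) := by
    refine sum_congr rfl fun x hx => ?_
    rw [mem_nfSet hS hc hgen] at hx
    by_cases hi : 1 ≤ x i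
    · rw [fl_sub hS hc hx i hi, mul_add]
    · have : x i = 0 := by omega
      rw [this, zero_mul, zero_mul, zero_mul, add_zero]
  have h5 : ∑ y ∈ nfSet S a, (y i + 1) * fl S a y =
      ∑ y ∈ nfSet S a, (y i * fl S a y + fl S a y) := by
    refine sum_congr rfl fun y _ => ?_
    rw [add_mul, one_mul]
  rw [h4, h5, sum_add_distrib, sum_add_distrib] at h1
  exact Nat.le_of_add_le_add_left h1

/-- the local sum -/
noncomputable def TT (S : AddSubmonoid ℕ) (a : Fin r → ℕ) (x : Fin r → ℕ) : ℕ :=
  fl S a x + ∑ i, x i * ((lam S a x + a i) / mult S)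

theorem sum_TT_le (hS : {n | n ∉ S}.Finite) (hc : 1 ≤ cond S)
    (hgen : ∀ g, (∃ i, a i = g) ↔ (g ∈ gens S ∧ g ≠ mult S)) :
    ∑ x ∈ nfSet S a, TT S a x ≤ left S * (r + 1) := by
  unfold TT
  rw [sum_add_distrib, sum_comm]
  have h1 : ∑ i : Fin r, ∑ x ∈ nfSet S a, x i * ((lam S a x + a i) / mult S) ≤
      ∑ _i : Fin r, ∑ x ∈ nfSet S a, fl S a x :=
    sum_le_sum fun i _ => count_dir hS hc hgen i
  have h2 : left S = ∑ x ∈ nfSet S a, fl S a x := left_eq hS hc hgen
  rw [sum_const, card_univ, Fintype.card_fin, smul_eq_mul, ← h2] at h1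
  rw [← h2]
  linarith

/-- the local inequality -/
theorem TT_ge (hS : {n | n ∉ S}.Finite) (hc : 1 ≤ cond S)
    (hgen : ∀ g, (∃ i, a i = g) ↔ (g ∈ gens S ∧ g ≠ mult S)) {x : Fin r → ℕ} (hx : IsNF S a x)
    {u : ℕ} (hu : u + lam S a x + 1 = mult S) :
    cond S + u ≤ TT S a x * (mult S + u) := by
  have hm := mult_pos hS
  have h1 := Ap_le hS hc hx.1
  have hdm := Nat.div_add_mod (cond S + mult S - 1 - wN a x) (mult S)
  have hstep : ∀ i, a i ≤ ((lam S a x + a i) / mult S) * (mult S + u) := by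
    intro i
    have h2 := a_gt hgen i
    have h3 := Nat.div_add_mod (lam S a x + a i) (mult S)
    have h4 := Nat.mod_lt (lam S a x + a i) hm
    have h5 : 1 ≤ (lam S a x + a i) / mult S := by
      rw [Nat.le_div_iff_mul_le hm]
      omega
    set g := (lam S a x + a i) / mult S with hg
    have h6 : a i ≤ mult S * g + u := by omega
    have h7 : u ≤ g * u := by nlinarith
    calc a i ≤ mult S * g + u := h6
      _ ≤ g * (mult S + u) := by rw [mul_add, mul_comm (mult S)]; omega
  have hsum : wN a x ≤ (∑ i, x i * ((lam S a x + a i) / mult S)) * (mult S + u) := by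
    unfold wN
    rw [sum_mul]
    refine sum_le_sum fun i _ => ?_
    calc a i * x i ≤ ((lam S a x + a i) / mult S * (mult S + u)) * x i :=
          Nat.mul_le_mul_right _ (hstep i)
      _ = x i * ((lam S a x + a i) / mult S) * (mult S + u) := by ring
  have hfl : mult S * fl S a x ≤ fl S a x * (mult S + u) := by
    rw [mul_comm]
    exact Nat.mul_le_mul_left _ (by omega)
  have hval : mult S * fl S a x + lam S a x = cond S + mult S - 1 - wN a x := hdm
  unfold TT
  rw [add_mul]
  omega

theorem sum_lam (hS : {n | n ∉ S}.Finite) (hc : 1 ≤ cond S)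
    (hgen : ∀ g, (∃ i, a i = g) ↔ (g ∈ gens S ∧ g ≠ mult S)) (φ : ℕ → ℕ) :
    ∑ x ∈ nfSet S a, φ (lam S a x) = ∑ j ∈ range (mult S), φ j := by
  classical
  have hm := mult_pos hS
  have hinjOn : Set.InjOn (fun x => lam S a x) (nfSet S a : Set _) := by
    intro x hx y hy h
    rw [mem_coe, mem_nfSet hS hc hgen] at hx hy
    refine psi_inj hS hx hy ?_
    rw [psi_apply, psi_apply, ZMod.natCast_eq_natCast_iff]
    have h1 := Ap_le hS hc hx.1
    have h2 := Ap_le hS hc hy.1
    have h3 : cond S + mult S - 1 - wN a x ≡ cond S + mult S - 1 - wN a y [MOD mult S] := h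
    have h4 : (cond S + mult S - 1 - wN a x) + (wN a x + wN a y) ≡
        (cond S + mult S - 1 - wN a y) + (wN a x + wN a y) [MOD mult S] := Nat.ModEq.add_right _ h3
    have h5 : (cond S + mult S - 1 - wN a x) + (wN a x + wN a y) = (cond S + mult S - 1) + wN a y := by
      omega
    have h6 : (cond S + mult S - 1 - wN a y) + (wN a x + wN a y) = (cond S + mult S - 1) + wN a x := by
      omega
    rw [h5, h6] at h4
    exact (Nat.ModEq.add_left_cancel' _ h4).symm
  have himg : (nfSet S a).image (fun x => lam S a x) = range (mult S) := by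
    refine eq_of_subset_of_card_le ?_ ?_
    · intro j hj
      rw [mem_image] at hj
      obtain ⟨x, _, rfl⟩ := hj
      rw [mem_range]
      exact Nat.mod_lt _ hm
    · rw [card_image_of_injOn hinjOn, card_nfSet hS hc hgen, card_range]
  rw [← himg, sum_image hinjOn]

/-- the uniform inequality -/
theorem uniform (hS : {n | n ∉ S}.Finite) (hc : 1 ≤ cond S) :
    ∑ u ∈ range (mult S), ⌈((cond S + u : ℕ) : ℚ) / ((mult S + u : ℕ) : ℚ)⌉₊ ≤
      left S * embDim S := by
  obtain ⟨r, he, a, _, hgen⟩ := exists_enum hS hc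
  have hm := mult_pos hS
  rw [he]
  refine le_trans ?_ (sum_TT_le hS hc hgen)
  rw [← sum_range_reflect]
  rw [← sum_lam hS hc hgen (fun j => ⌈((cond S + (mult S - 1 - j) : ℕ) : ℚ) /
    ((mult S + (mult S - 1 - j) : ℕ) : ℚ)⌉₊)]
  refine sum_le_sum fun x hx => ?_
  rw [mem_nfSet hS hc hgen] at hx
  have hlt : lam S a x < mult S := Nat.mod_lt _ hm
  have h := TT_ge hS hc hgen hx (u := mult S - 1 - lam S a x) (by omega)
  rw [Nat.ceil_le, div_le_iff₀ (by exact_mod_cast (by omega : 0 < mult S + (mult S - 1 - lam S a x)))]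
  exact_mod_cast h

end Pool.Agent.Helper21.UW
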